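import Pool.Agent.helper84.NR.Spec

set_option autoImplicit false

namespace Pool.Agent.helper84.NR

open scoped Classical
open Finset

theorem VXS_onV {V F : Type} (M : Cyc V F) (f : F) (e : Sym2 V) (v : V) (h : OnE M f e) (hv : v ∈ e) : OnV M f v := by
  obtain ⟨k, rfl⟩ := h
  rcases Sym2.mem_iff.1 hv with rfl | rfl
  · exact ⟨k, rfl⟩
  · exact ⟨k + 1, rfl⟩

theorem VXS (hDEG : DEG_stmt) (hPAR : PAR_stmt) : VXS_stmt := by
  intro V F _ _ M x y J hT q hqx hqy v hvJ e hve hcx hge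
  by_contra hno
  have H : ∀ B ∈ J, ∀ k, inb M x y B k → v ∈ s(ww M y B k, ww M y B (k + 1)) →
      ¬ cx M x s(ww M y B k, ww M y B (k + 1)) →
      ∀ g, OnE M.toCyc g s(ww M y B k, ww M y B (k + 1)) → Quot.mk (lk M (inU M x y J)) g ≠ q := by
    intro B hB k h1 h2 h3 g hg hgq
    exact hno ⟨B, hB, k, h1, h2, h3, g, hg, hgq⟩
  obtain ⟨hxe, A, hAx, hAe⟩ := hcx
  have hvx : v ≠ x := by
    rintro rfl
    exact hxe hve
  have hvA : OnV M.toCyc A v := VXS_onV _ _ _ _ hAe hve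
  obtain ⟨-, -, -, -, hD5⟩ := hDEG V F M x
  have hc2 := hD5 v hvx ⟨A, hAx, hvA⟩
  have hsepcx : ∀ e' : Sym2 V, v ∈ e' → (∃ f, OnE M.toCyc f e' ∧ Quot.mk (lk M (inU M x y J)) f = q) →
      (∃ g, OnE M.toCyc g e' ∧ ¬ Quot.mk (lk M (inU M x y J)) g = q) → cx M x e' := by
    rintro e' hve' ⟨f, hf, hfS⟩ ⟨g, hg, hgS⟩
    have hU : inU M x y J e' := by
      by_contra hU
      have : Quot.mk (lk M (inU M x y J)) f = Quot.mk (lk M (inU M x y J)) g := Quot.sound ⟨e', hU, hf, hg⟩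
      exact hgS (this ▸ hfS)
    rcases hU with h | ⟨B, hB, k, hk, he⟩
    · exact h
    · by_contra hc
      rw [he] at hve' hc hf
      exact H B hB k hk hve' hc f hf hfS
  have hpar := hPAR V F M {f | Quot.mk (lk M (inU M x y J)) f = q} v
  set T := univ.filter (fun e : Sym2 V => v ∈ e ∧ (∃ f, OnE M.toCyc f e ∧ f ∈ {f | Quot.mk (lk M (inU M x y J)) f = q}) ∧
      ∃ g, OnE M.toCyc g e ∧ g ∉ {f | Quot.mk (lk M (inU M x y J)) f = q}) with hTdef
  set D := univ.filter (fun e : Sym2 V => v ∈ e ∧ x ∉ e ∧ ∃ A, OnV M.toCyc A x ∧ OnE M.toCyc A e) with hDdef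
  have hTD : T ⊆ D := by
    intro e' he'
    rw [hTdef, mem_filter] at he'
    have := hsepcx e' he'.2.1 he'.2.2.1 he'.2.2.2
    rw [hDdef, mem_filter]
    exact ⟨mem_univ _, he'.2.1, this.1, this.2⟩
  have heT : e ∈ T := by
    obtain ⟨g, hg1, hg2⟩ := hge
    rw [hTdef, mem_filter]
    exact ⟨mem_univ _, hve, ⟨g, hg1, hg2⟩, ⟨A, hAe, hqx A hAx⟩⟩
  have hTeqD : T = D := by
    apply Finset.eq_of_subset_of_card_le hTD
    rw [hc2]
    obtain ⟨m, hm⟩ := hpar
    have : 0 < T.card := card_pos.2 ⟨e, heT⟩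
    omega
  obtain ⟨B, hBJ, hBv⟩ := hvJ
  have hBy := hT.jy B hBJ
  have hlink := M.link v {f | Quot.mk (lk M (inU M x y J)) f = q ∨ OnV M.toCyc f x} (by
    intro e' hve' f g hf hg hfS
    by_cases hxe' : x ∈ e'
    · exact Or.inr (VXS_onV _ _ _ _ hg hxe')
    by_cases hAe' : ∃ A', OnV M.toCyc A' x ∧ OnE M.toCyc A' e'
    · have hD : e' ∈ D := by
        rw [hDdef, mem_filter]
        exact ⟨mem_univ _, hve', hxe', hAe'⟩
      rw [← hTeqD, hTdef, mem_filter] at hD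
      obtain ⟨-, -, ⟨g0, hg0, hg0S⟩, -⟩ := hD
      obtain ⟨A', hA'x, hA'e⟩ := hAe'
      obtain ⟨g1, hg1, hg1e, hg1u⟩ := M.two e' A' hA'e
      have hA'S := hqx A' hA'x
      have : g0 = g1 := by
        rcases hg1u g0 hg0 with h | h
        · exfalso
          apply hA'S
          rw [← h]
          exact hg0S
        · exact h
      rcases hg1u g hg with h | h
      · right
        rw [h]
        exact hA'x
      · left
        rw [h, ← this]
        exact hg0S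
    · left
      have hfq : Quot.mk (lk M (inU M x y J)) f = q := by
        rcases hfS with h | h
        · exact h
        · exact absurd ⟨f, h, hf⟩ hAe'
      by_contra hgq
      have := hsepcx e' hve' ⟨f, hf, hfq⟩ ⟨g, hg, hgq⟩
      exact hAe' this.2) A B hvA hBv (Or.inr hAx)
  rcases hlink with h | h
  · exact hqy B hBy h
  · exact hT.ne B ⟨h, hBy⟩

end Pool.Agent.helper84.NR
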