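import Pool.Agent.helper84.NR.Spec

set_option autoImplicit false

namespace Pool.Agent.helper84.NR

open scoped Classical
open Finset

theorem WLX_onV {V F : Type} (M : Cyc V F) (f : F) (e : Sym2 V) (v : V) (h : OnE M f e) (hv : v ∈ e) : OnV M f v := by
  obtain ⟨k, rfl⟩ := h
  rcases Sym2.mem_iff.1 hv with rfl | rfl
  · exact ⟨k, rfl⟩
  · exact ⟨k + 1, rfl⟩

theorem WLX (hIDX : IDX_stmt) (hDEG : DEG_stmt) (hPAR : PAR_stmt) (hWW0 : WW0_stmt) : WLX_stmt := by
  intro V F _ _ M x y J hT q hq A hA i hi1 hi2 hP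
  obtain ⟨hinj, hvert, hedge, hedge2, hper⟩ := hIDX V F M.toCyc A (st M x A)
  obtain ⟨hD1, -⟩ := hDEG V F M x
  obtain ⟨hw0, hwl⟩ := hWW0 V F M x A hA
  have hinj' : ∀ a b, a < M.len A → b < M.len A → ww M x A a = ww M x A b → a = b := hinj
  have hAV : ∀ k, OnV M.toCyc A (ww M x A k) := fun k => ⟨_, rfl⟩
  have hAE : ∀ k, OnE M.toCyc A s(ww M x A k, ww M x A (k + 1)) := fun k => ⟨st M x A + k, rfl⟩
  have adj1 : Adj M.toCyc x (ww M x A 1) := by
    refine ⟨A, ?_⟩
    have := hAE 0
    rwa [hw0] at this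
  have hthree := M.three A
  have adjl : ∀ k, k + 1 = M.len A → Adj M.toCyc x (ww M x A k) := by
    intro k hk
    refine ⟨A, ?_⟩
    have := hAE k
    rw [hk, hwl, Sym2.eq_swap] at this
    exact this
  have step : ∀ j, 1 ≤ j → (j + 1) + 1 < M.len A → (¬ ∃ B ∈ J, OnV M.toCyc B (ww M x A (j + 1))) →
      ((∃ g, OnE M.toCyc g s(ww M x A j, ww M x A (j + 1)) ∧ Quot.mk _ g = q) ↔
        (∃ g, OnE M.toCyc g s(ww M x A (j + 1), ww M x A (j + 1 + 1)) ∧ Quot.mk _ g = q)) := by
    intro j hj1 hj2 hnJ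
    have hpar := hPAR V F M {f | Quot.mk (lk M (inU M x y J)) f = q} (ww M x A (j + 1))
    have hvx : ¬ Adj M.toCyc x (ww M x A (j + 1)) := fun h => hnJ (hT.js _ h)
    have hvnx : ww M x A (j + 1) ≠ x := by
      intro h
      have := hinj' (j + 1) 0 (by omega) (by omega) (by rw [hw0]; exact h)
      omega
    have hne : s(ww M x A j, ww M x A (j + 1)) ≠ s(ww M x A (j + 1), ww M x A (j + 1 + 1)) := by
      intro h
      rcases Sym2.eq_iff.1 h with ⟨h1, -⟩ | ⟨h1, -⟩
      · have := hinj' _ _ (by omega) (by omega) h1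
        omega
      · have := hinj' _ _ (by omega) (by omega) h1
        omega
    have hsub : ∀ e : Sym2 V, ww M x A (j + 1) ∈ e → (∃ f, OnE M.toCyc f e ∧ Quot.mk (lk M (inU M x y J)) f = q) →
        (∃ g, OnE M.toCyc g e ∧ ¬ Quot.mk (lk M (inU M x y J)) g = q) →
        e = s(ww M x A j, ww M x A (j + 1)) ∨ e = s(ww M x A (j + 1), ww M x A (j + 1 + 1)) := by
      rintro e hve ⟨f, hf, hfS⟩ ⟨g, hg, hgS⟩
      have hU : inU M x y J e := by
        by_contra hU
        have : Quot.mk (lk M (inU M x y J)) f = Quot.mk (lk M (inU M x y J)) g := Quot.sound ⟨e, hU, hf, hg⟩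
        exact hgS (this ▸ hfS)
      rcases hU with ⟨hxe, A', hA', hA'e⟩ | ⟨B, hB, k, hk, he⟩
      · have hAA : A = A' := hD1 _ A A' hvnx hvx hA (hAV _) hA' (WLX_onV _ _ _ _ hA'e hve)
        rw [← hAA] at hA'e
        obtain ⟨a, ha, hea⟩ := hedge e hA'e
        have hea' : e = s(ww M x A a, ww M x A (a + 1)) := hea
        rw [hea'] at hve
        rcases Sym2.mem_iff.1 hve with h | h
        · have := hinj' _ _ (by omega) ha h
          right
          rw [hea', this]
        · by_cases hal : a + 1 < M.len A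
          · have := hinj' _ _ (by omega) hal h
            left
            have haj : a = j := by omega
            rw [hea', haj]
          · exfalso
            have hal2 : a + 1 = M.len A := by omega
            rw [hal2, hwl] at h
            exact hvnx h
      · exfalso
        apply hnJ
        refine ⟨B, hB, ?_⟩
        exact WLX_onV _ _ _ _ ⟨st M y B + k, he⟩ hve
    set T := univ.filter (fun e : Sym2 V => ww M x A (j + 1) ∈ e ∧ (∃ f, OnE M.toCyc f e ∧ f ∈ {f | Quot.mk (lk M (inU M x y J)) f = q}) ∧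
      ∃ g, OnE M.toCyc g e ∧ g ∉ {f | Quot.mk (lk M (inU M x y J)) f = q}) with hTdef
    have m0 : s(ww M x A j, ww M x A (j + 1)) ∈ T ↔ (∃ g, OnE M.toCyc g s(ww M x A j, ww M x A (j + 1)) ∧ Quot.mk _ g = q) := by
      rw [hTdef, mem_filter]
      constructor
      · rintro ⟨-, -, ⟨f, hf1, hf2⟩, -⟩
        exact ⟨f, hf1, hf2⟩
      · rintro ⟨f, hf1, hf2⟩
        exact ⟨mem_univ _, by simp, ⟨f, hf1, hf2⟩, ⟨A, hAE j, hq A hA⟩⟩
    have m1 : s(ww M x A (j + 1), ww M x A (j + 1 + 1)) ∈ T ↔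
        (∃ g, OnE M.toCyc g s(ww M x A (j + 1), ww M x A (j + 1 + 1)) ∧ Quot.mk _ g = q) := by
      rw [hTdef, mem_filter]
      constructor
      · rintro ⟨-, -, ⟨f, hf1, hf2⟩, -⟩
        exact ⟨f, hf1, hf2⟩
      · rintro ⟨f, hf1, hf2⟩
        exact ⟨mem_univ _, by simp, ⟨f, hf1, hf2⟩, ⟨A, hAE (j + 1), hq A hA⟩⟩
    have hTsub : ∀ e ∈ T, e = s(ww M x A j, ww M x A (j + 1)) ∨ e = s(ww M x A (j + 1), ww M x A (j + 1 + 1)) := by
      intro e he
      rw [hTdef, mem_filter] at he
      exact hsub e he.2.1 he.2.2.1 he.2.2.2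
    constructor
    · intro h
      by_contra h'
      have : T = {s(ww M x A j, ww M x A (j + 1))} := by
        ext e
        rw [mem_singleton]
        constructor
        · intro he
          rcases hTsub e he with h1 | h1
          · exact h1
          · exfalso
            rw [h1] at he
            exact h' (m1.1 he)
        · intro he
          rw [he]
          exact m0.2 h
      rw [this] at hpar
      simp at hpar
    · intro h
      by_contra h'
      have : T = {s(ww M x A (j + 1), ww M x A (j + 1 + 1))} := by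
        ext e
        rw [mem_singleton]
        constructor
        · intro he
          rcases hTsub e he with h1 | h1
          · exfalso
            rw [h1] at he
            exact h' (m0.1 he)
          · exact h1
        · intro he
          rw [he]
          exact m1.2 h
      rw [this] at hpar
      simp at hpar
  have down : ∀ n, ∀ i, i = n + 1 → i + 1 < M.len A →
      (∃ g, OnE M.toCyc g s(ww M x A i, ww M x A (i + 1)) ∧ Quot.mk (lk M (inU M x y J)) g = q) →
      ∃ i1, 1 ≤ i1 ∧ i1 ≤ i ∧ (∃ B ∈ J, OnV M.toCyc B (ww M x A i1)) ∧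
        ∃ g, OnE M.toCyc g s(ww M x A i1, ww M x A (i1 + 1)) ∧ Quot.mk (lk M (inU M x y J)) g = q := by
    intro n
    induction n with
    | zero =>
      intro i hi hil hPi
      subst hi
      exact ⟨1, le_refl _, le_refl _, hT.js _ adj1, hPi⟩
    | succ n ih =>
      intro i hi hil hPi
      subst hi
      by_cases hJ : ∃ B ∈ J, OnV M.toCyc B (ww M x A (n + 1 + 1))
      · exact ⟨n + 1 + 1, by omega, le_refl _, hJ, hPi⟩
      · have hPn := (step (n + 1) (by omega) hil hJ).2 hPi
        obtain ⟨i1, h1, h2, h3, h4⟩ := ih (n + 1) rfl (by omega) hPn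
        exact ⟨i1, h1, by omega, h3, h4⟩
  have up : ∀ m, ∀ i, i + 1 + m + 1 = M.len A → 1 ≤ i →
      (∃ g, OnE M.toCyc g s(ww M x A i, ww M x A (i + 1)) ∧ Quot.mk (lk M (inU M x y J)) g = q) →
      ∃ i2, i + 1 ≤ i2 ∧ i2 < M.len A ∧ (∃ B ∈ J, OnV M.toCyc B (ww M x A i2)) ∧
        ∃ g, OnE M.toCyc g s(ww M x A (i2 - 1), ww M x A i2) ∧ Quot.mk (lk M (inU M x y J)) g = q := by
    intro m
    induction m with
    | zero =>
      intro i hi hi1 hPi
      exact ⟨i + 1, le_refl _, by omega, hT.js _ (adjl (i + 1) (by omega)), hPi⟩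
    | succ m ih =>
      intro i hi hi1 hPi
      by_cases hJ : ∃ B ∈ J, OnV M.toCyc B (ww M x A (i + 1))
      · exact ⟨i + 1, le_refl _, by omega, hJ, hPi⟩
      · have hPn := (step i hi1 (by omega) hJ).1 hPi
        obtain ⟨i2, h1, h2, h3, h4⟩ := ih (i + 1) (by omega) (by omega) hPn
        exact ⟨i2, by omega, h2, h3, h4⟩
  obtain ⟨i1, a1, a2, a3, a4⟩ := down (i - 1) i (by omega) hi2 hP
  obtain ⟨i2, b1, b2, b3, b4⟩ := up (M.len A - i - 2) i (by omega) hi1 hP
  exact ⟨i1, i2, a1, a2, b1, b2, a3, b3, a4, b4⟩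

end Pool.Agent.helper84.NR
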