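import Pool.Agent.helper56.NR.Spec

/-!
# Project nr: (MP_af9036_an), module XL (helper46): Lemma X
-/

set_option autoImplicit false

open Complex Metric Set Filter Topology MeasureTheory Pool.Agent.helper98.ILF

open EX (ff)

noncomputable section

namespace NR

theorem XL (hW : WIN_stmt) : XL_stmt := by
  intro a K l β ha hpos hQ
  suffices H : ∀ (N : ℕ) (σ B : ℝ) (p q : ℕ), q + 1 - p ≤ N → q ≤ K → 0 ≤ σ → 0 ≤ B →
      (∀ m ∈ Finset.Icc p q, l m ≤ σ * β m ∧ β m ≤ B) →
      ∑ m ∈ Finset.Icc p q, l m ≤ 2 * σ * B by
    intro σ B p q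
    exact H (q + 1 - p) σ B p q le_rfl
  have ha0 : 0 < a := by linarith
  intro N
  induction N with
  | zero =>
    intro σ B p q hN hq hσ hB h
    have h0 : Finset.Icc p q = ∅ := Finset.Icc_eq_empty (by omega)
    rw [h0, Finset.sum_empty]
    positivity
  | succ N ih =>
    intro σ B p q hN hq hσ hB h
    by_cases hpq : p ≤ q
    swap
    · have h0 : Finset.Icc p q = ∅ := Finset.Icc_eq_empty hpq
      rw [h0, Finset.sum_empty]
      positivity
    obtain ⟨j₀, hj₀, hmax⟩ := Finset.exists_max_image (Finset.Icc p q) β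
      ⟨p, Finset.mem_Icc.mpr ⟨le_rfl, hpq⟩⟩
    have hj₀' := Finset.mem_Icc.mp hj₀
    obtain ⟨B', hB'⟩ : ∃ B', B' = β j₀ := ⟨_, rfl⟩
    rw [← hB'] at hmax
    have hB'pos : 0 < B' := by rw [hB']; exact (hpos j₀ (by omega)).2
    have hB'B : B' ≤ B := by rw [hB']; exact (h j₀ hj₀).2
    have hex : ∃ i, p ≤ i ∧ i ≤ q ∧ B' / a < β i :=
      ⟨j₀, hj₀'.1, hj₀'.2, by rw [← hB']; exact div_lt_self hB'pos (by linarith)⟩
    obtain ⟨i, ⟨hpi, hiq, hβi⟩, hmin⟩ : ∃ i, (p ≤ i ∧ i ≤ q ∧ B' / a < β i) ∧
        ∀ j, p ≤ j → j < i → β j ≤ B' / a := by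
      classical
      refine ⟨Nat.find hex, Nat.find_spec hex, fun j hj1 hj2 => ?_⟩
      by_contra hcon
      have h1 := Nat.find_spec hex
      exact Nat.find_min hex hj2 ⟨hj1, by omega, not_le.mp hcon⟩
    have hiK : i ≤ K := hiq.trans hq
    have hli := (hpos i hiK).1
    have hbi := (hpos i hiK).2
    have hsi : l i ≤ σ * β i := (h i (Finset.mem_Icc.mpr ⟨hpi, hiq⟩)).1
    have hmi : β i ≤ B' := hmax i (Finset.mem_Icc.mpr ⟨hpi, hiq⟩)
    -- (1)
    have h1 : ∑ m ∈ Finset.Ico p i, l m ≤ 2 * σ * (B' / a) := by
      rcases Nat.eq_or_lt_of_le hpi with he | hlt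
      · rw [he, Finset.Ico_self, Finset.sum_empty]
        positivity
      · have he : Finset.Ico p i = Finset.Icc p (i - 1) := by
          ext x
          simp only [Finset.mem_Ico, Finset.mem_Icc]
          omega
        rw [he]
        refine ih σ (B' / a) p (i - 1) (by omega) (by omega) hσ (by positivity) ?_
        intro m hm
        have hm' := Finset.mem_Icc.mp hm
        exact ⟨(h m (Finset.mem_Icc.mpr ⟨hm'.1, by omega⟩)).1, hmin m hm'.1 (by omega)⟩
    -- (3)
    have h3 : ∀ m, i < m → m ≤ q → l m ≤ σ / a * β m := by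
      intro m
      induction m using Nat.strong_induction_on with
      | _ m ihm =>
        intro him hmq
        have hmK : m ≤ K := hmq.trans hq
        have hlm := (hpos m hmK).1
        have hbm := (hpos m hmK).2
        by_cases hs : ∑ x ∈ Finset.Ioo i m, l x ≤ l m / 2
        · have hq1 := hQ i m him hmK hs
          have hmm : β m ≤ B' := hmax m (Finset.mem_Icc.mpr ⟨by omega, hmq⟩)
          have haβ : B' < a * β i := by
            rw [div_lt_iff₀ ha0] at hβi
            linarith [mul_comm (β i) a]
          have hlt : l m / l i < 1 := by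
            by_contra hcon
            rw [min_eq_left (not_lt.mp hcon), mul_one] at hq1
            linarith
          rw [min_eq_right hlt.le] at hq1
          have h4 : a * (l m * β i) ≤ β m * l i := by
            have h5 : a * (l m / l i) * β i = a * (l m * β i) / l i := by
              field_simp
            rw [h5, div_le_iff₀ hli] at hq1
            exact hq1
          have h6 : β m * l i ≤ β m * (σ * β i) := mul_le_mul_of_nonneg_left hsi hbm.le
          have h7 : (a * l m) * β i ≤ (σ * β m) * β i := by
            calc (a * l m) * β i = a * (l m * β i) := by ring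
              _ ≤ β m * l i := h4
              _ ≤ β m * (σ * β i) := h6
              _ = (σ * β m) * β i := by ring
          have h8 : a * l m ≤ σ * β m := le_of_mul_le_mul_right h7 hbi
          rw [div_mul_eq_mul_div, le_div_iff₀ ha0]
          linarith [mul_comm a (l m)]
        · have hw := hW a K l β ha hpos hQ (σ / a) (i + 1) m hmK (by positivity)
            (fun j hj1 hj2 => ihm j hj2 (by omega) (by omega))
            (fun p' q' B'' hp' hq' hB'' hβ => ih (σ / a) B'' p' q' (by omega) (by omega)
              (by positivity) hB'' (fun j hj => by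
                have hj' := Finset.mem_Icc.mp hj
                exact ⟨ihm j (by omega) (by omega) (by omega), hβ j hj⟩))
            (by
              have he : Finset.Ico (i + 1) m = Finset.Ioo i m := by
                ext x
                simp only [Finset.mem_Ico, Finset.mem_Ioo]
                omega
              rw [he]
              exact not_le.mp hs)
          refine hw.trans (mul_le_mul_of_nonneg_right ?_ hbm.le)
          have hτ : 0 ≤ σ / a := by positivity
          rw [div_le_iff₀ ha0]
          nlinarith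
    -- (4)
    have h4 : ∑ m ∈ Finset.Icc (i + 1) q, l m ≤ 2 * (σ / a) * B' := by
      refine ih (σ / a) B' (i + 1) q (by omega) hq (by positivity) hB'pos.le ?_
      intro m hm
      have hm' := Finset.mem_Icc.mp hm
      exact ⟨h3 m (by omega) hm'.2, hmax m (Finset.mem_Icc.mpr ⟨by omega, hm'.2⟩)⟩
    have hsplit : ∑ m ∈ Finset.Icc p q, l m =
        ∑ m ∈ Finset.Ico p i, l m + (l i + ∑ m ∈ Finset.Icc (i + 1) q, l m) := by
      have e1 : Finset.Icc p q = Finset.Ico p (q + 1) := by
        ext x
        simp only [Finset.mem_Ico, Finset.mem_Icc]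
        omega
      have e2 : Finset.Icc (i + 1) q = Finset.Ico (i + 1) (q + 1) := by
        ext x
        simp only [Finset.mem_Ico, Finset.mem_Icc]
        omega
      rw [e1, e2, ← Finset.sum_eq_sum_Ico_succ_bot (by omega : i < q + 1),
        Finset.sum_Ico_consecutive _ hpi (by omega)]
    rw [hsplit]
    have hs0 : 0 ≤ σ * B' := by positivity
    have h5 : σ * β i ≤ σ * B' := mul_le_mul_of_nonneg_left hmi hσ
    have h6 : 2 * σ * (B' / a) = 2 * (σ * B') / a := by ring
    have h7 : 2 * (σ / a) * B' = 2 * (σ * B') / a := by ring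
    have h8 : 2 * (σ * B') / a ≤ σ * B' / 4 := by
      rw [div_le_iff₀ ha0]
      nlinarith
    have h9 : σ * B' ≤ σ * B := mul_le_mul_of_nonneg_left hB'B hσ
    have h10 : 2 * σ * B = 2 * (σ * B) := by ring
    rw [h10]
    rw [h6] at h1
    rw [h7] at h4
    linarith

end NR
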